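import Mathlib

/-!
# Infinite sets of primes with a coprimality condition (Dirichlet)
-/

namespace KumWA

/-- One step of the construction. -/
theorem exists_next_prime (B : ℕ) (s : Finset Nat.Primes) (hs : ∀ x ∈ s, (x : ℕ) % 8 = 5 ∧ B < x) :
    ∃ y : Nat.Primes, ((y : ℕ) % 8 = 5 ∧ B < y) ∧ ∀ x ∈ s, (x : ℕ) < y ∧
      Nat.Coprime ((x : ℕ) * (x + 1) / 2) ((y : ℕ) * (y + 1) / 2) := by
  set L : ℕ := ∏ q ∈ s, ((q : ℕ) * (((q : ℕ) + 1) / 2)) with hL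
  have hodd : Odd L := by
    rw [hL]
    apply Finset.prod_induction _ (fun n => Odd n) (fun a b => Odd.mul) odd_one
    intro q hq
    have h5 := (hs q hq).1
    apply Odd.mul
    · rw [Nat.odd_iff]; omega
    · rw [Nat.odd_iff]; omega
  have hcop : Nat.Coprime 8 L := by
    rw [show (8 : ℕ) = 2 ^ 3 by norm_num]
    exact Nat.Coprime.pow_left 3 (Nat.coprime_two_left.2 hodd)
  obtain ⟨k, hk8, hkL⟩ := Nat.chineseRemainder hcop 5 1
  have hLpos : 0 < L := hodd.pos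
  have hk1 : Nat.Coprime k 8 := by
    have h : Nat.gcd k 8 = Nat.gcd 5 8 := hk8.gcd_eq
    rw [Nat.Coprime, h]; norm_num
  have hk2 : Nat.Coprime k L := by
    have h : Nat.gcd k L = Nat.gcd 1 L := hkL.gcd_eq
    rw [Nat.Coprime, h]; simp
  have hk : Nat.Coprime k (8 * L) := Nat.Coprime.mul_right hk1 hk2
  obtain ⟨p, hpgt, hpp, hpm⟩ := Nat.forall_exists_prime_gt_and_modEq
    (B + ∑ q ∈ s, (q : ℕ)) (by positivity : 8 * L ≠ 0) hk
  have hp8 : p ≡ 5 [MOD 8] := (hpm.of_mul_right L).trans hk8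
  have hpL : p ≡ 1 [MOD L] := (hpm.of_mul_left 8).trans hkL
  have hp8' : p % 8 = 5 := hp8
  refine ⟨⟨p, hpp⟩, ⟨hp8', by show B < p; omega⟩, fun x hx => ?_⟩
  have hx5 := (hs x hx).1
  have hxle : (x : ℕ) ≤ ∑ q ∈ s, (q : ℕ) :=
    Finset.single_le_sum (f := fun q : Nat.Primes => (q : ℕ)) (fun _ _ => Nat.zero_le _) hx
  refine ⟨by show (x : ℕ) < p; omega, ?_⟩
  have hdvd : (x : ℕ) * (((x : ℕ) + 1) / 2) ∣ L :=
    Finset.dvd_prod_of_mem (fun q : Nat.Primes => (q : ℕ) * (((q : ℕ) + 1) / 2)) hx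
  have hxe : (x : ℕ) * (x + 1) / 2 = (x : ℕ) * (((x : ℕ) + 1) / 2) :=
    Nat.mul_div_assoc _ (by omega)
  have hpe : p * (p + 1) / 2 = p * ((p + 1) / 2) := Nat.mul_div_assoc _ (by omega)
  show Nat.Coprime ((x : ℕ) * (x + 1) / 2) (p * (p + 1) / 2)
  rw [hxe, hpe]
  apply Nat.Coprime.coprime_dvd_left hdvd
  apply Nat.Coprime.symm
  apply Nat.Coprime.mul_left
  · have h : Nat.gcd p L = Nat.gcd 1 L := hpL.gcd_eq
    rw [Nat.Coprime, h]; simp
  · have h1 : Nat.Coprime (p + 1) L := by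
      have h : Nat.gcd (p + 1) L = Nat.gcd (1 + 1) L := (hpL.add_right 1).gcd_eq
      rw [Nat.Coprime, h]
      exact Nat.coprime_two_left.2 hodd
    exact Nat.Coprime.coprime_dvd_left (Nat.div_dvd_of_dvd (by omega)) h1

/-- H1 -/
theorem exists_infinite_primes (B : ℕ) : ∃ S : Set Nat.Primes, S.Infinite ∧
    (∀ p ∈ S, (p : ℕ) % 8 = 5 ∧ B < p) ∧
    S.Pairwise (fun p q => Nat.Coprime ((p : ℕ) * (p + 1) / 2) ((q : ℕ) * (q + 1) / 2)) := by
  obtain ⟨f, hf, hr⟩ := exists_seq_of_forall_finset_exists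
    (fun p : Nat.Primes => (p : ℕ) % 8 = 5 ∧ B < p)
    (fun x y => (x : ℕ) < y ∧ Nat.Coprime ((x : ℕ) * (x + 1) / 2) ((y : ℕ) * (y + 1) / 2))
    (exists_next_prime B)
  refine ⟨Set.range f, ?_, ?_, ?_⟩
  · apply Set.infinite_range_of_injective
    have hmono : StrictMono fun n => ((f n : Nat.Primes) : ℕ) := fun m n hmn => (hr m n hmn).1
    exact fun m n hmn => hmono.injective (by simp only [hmn])
  · rintro _ ⟨n, rfl⟩
    exact hf n
  · rintro _ ⟨m, rfl⟩ _ ⟨n, rfl⟩ hne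
    rcases lt_trichotomy m n with h | h | h
    · exact (hr m n h).2
    · exact absurd (by rw [h]) hne
    · exact (hr n m h).2.symm

end KumWA
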