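import Mathlib

namespace Pool.Agent.Helper38.WSat

/-- `G` contains a copy of `F` that uses the edge `e`. -/
def HasCopyUsing {α V : Type*} (F : SimpleGraph α) (G : SimpleGraph V) (e : Sym2 V) : Prop :=
  ∃ f : SimpleGraph.Copy F G, ∃ x ∈ F.edgeSet, Sym2.map f x = e

/-- `G` is weakly `F`-saturated: `G` has no copy of `F`, and the non-edges of `G` can be listed
as `l₀, l₁, …` (each exactly once) so that for every `i` the graph `G ∪ {l₀, …, lᵢ}` has a copy
of `F` that uses the edge `lᵢ`. -/
def WeaklySaturated {α V : Type*} (F : SimpleGraph α) (G : SimpleGraph V) : Prop :=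
  F.Free G ∧ ∃ l : List (Sym2 V), l.Nodup ∧ (∀ e, e ∈ l ↔ e ∈ Gᶜ.edgeSet) ∧
    ∀ (i : ℕ) (h : i < l.length),
      HasCopyUsing F (G ⊔ SimpleGraph.fromEdgeSet {e | e ∈ l.take (i + 1)}) l[i]

/-- The weak saturation number: the least number of edges of a weakly `F`-saturated graph
on `n` vertices. -/
noncomputable def wsat {α : Type*} (n : ℕ) (F : SimpleGraph α) : ℕ :=
  sInf {m | ∃ G : SimpleGraph (Fin n), WeaklySaturated F G ∧ G.edgeSet.ncard = m}

/-- The complete bipartite graph `K_{s,t}`. -/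
abbrev K (s t : ℕ) : SimpleGraph (Fin s ⊕ Fin t) := completeBipartiteGraph (Fin s) (Fin t)

end Pool.Agent.Helper38.WSat
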