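import Mathlib
import Pool.Agent.Helper38.WSatDefs

namespace Pool.Agent.Helper38.WSat

open Finset

/-! ### Lower bound -/

/-- A linear dependency with no zero coefficient between points of the moment curve. -/
lemma exists_dependency {κ : Type*} [Fintype κ] [DecidableEq κ] (x : κ → ℝ)
    (hx : Function.Injective x) :
    ∃ w : κ → ℝ, (∀ k, w k ≠ 0) ∧
      ∀ m : ℕ, m + 1 < Fintype.card κ → ∑ k, w k * x k ^ m = 0 := by
  refine ⟨fun k => (∏ j ∈ Finset.univ.erase k, (x k - x j))⁻¹, ?_, ?_⟩
  · intro k
    apply inv_ne_zero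
    rw [Finset.prod_ne_zero_iff]
    intro j hj
    rw [sub_ne_zero]
    intro h
    exact (Finset.ne_of_mem_erase hj) (hx h).symm
  · intro m hm
    have h := Lagrange.coeff_eq_sum (s := Finset.univ) (v := x) hx.injOn
      (P := (Polynomial.X : Polynomial ℝ) ^ m) (by
        rw [Polynomial.degree_X_pow, Finset.card_univ]
        exact_mod_cast (by omega : m < Fintype.card κ))
    rw [Polynomial.coeff_X_pow, if_neg (by rw [Finset.card_univ]; omega)] at h
    rw [h]
    apply Finset.sum_congr rfl
    intro k _
    rw [Polynomial.eval_pow, Polynomial.eval_X, div_eq_mul_inv, mul_comm]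

/-- The alternating form with coefficients `c` evaluated at two points of the moment curve. -/
noncomputable def form {N : ℕ} (c : Fin N → Fin N → ℝ) (x y : ℝ) : ℝ :=
  ∑ a, ∑ b, c a b * (x ^ (a : ℕ) * y ^ (b : ℕ))

/-- The antisymmetric array attached to a function on ordered pairs. -/
def anti {N : ℕ} (φ : {p : Fin N × Fin N // p.1 < p.2} → ℝ) (a b : Fin N) : ℝ :=
  if h : a < b then φ ⟨(a, b), h⟩ else if h : b < a then - φ ⟨(b, a), h⟩ else 0

lemma anti_swap {N : ℕ} (φ : {p : Fin N × Fin N // p.1 < p.2} → ℝ) (a b : Fin N) :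
    anti φ a b = - anti φ b a := by
  unfold anti
  rcases lt_trichotomy a b with h | h | h
  · simp [h, h.not_gt]
  · subst h; simp
  · simp [h, h.not_gt]

/-- One step of the closure process: if an alternating form vanishes on all edges of a copy of
`K_{s,t}` but one, it vanishes on the last one. -/
lemma step {N s t : ℕ} (hN : s + t = N + 1) (c : Fin N → Fin N → ℝ)
    (hc : ∀ a b, c a b = - c b a) (x : Fin s ⊕ Fin t → ℝ) (hx : Function.Injective x)
    (a₀ : Fin s) (b₀ : Fin t)
    (h : ∀ a b, (a, b) ≠ (a₀, b₀) → form c (x (Sum.inl a)) (x (Sum.inr b)) = 0) :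
    form c (x (Sum.inl a₀)) (x (Sum.inr b₀)) = 0 := by
  obtain ⟨w, hw, hsum⟩ := exists_dependency x hx
  have hcard : Fintype.card (Fin s ⊕ Fin t) = N + 1 := by simp [hN]
  -- the two half sums are opposite to each other
  set X : Fin N → ℝ := fun m => ∑ a, w (Sum.inl a) * x (Sum.inl a) ^ (m : ℕ) with hX
  set Y : Fin N → ℝ := fun m => ∑ b, w (Sum.inr b) * x (Sum.inr b) ^ (m : ℕ) with hY
  have hXY : ∀ m, Y m = - X m := by
    intro m
    have := hsum (m : ℕ) (by rw [hcard]; have := m.isLt; omega)
    rw [Fintype.sum_sum_type] at this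
    simp only [hX, hY]
    linarith
  -- the form evaluated at `(X, Y)` is zero
  have h0 : ∑ p, ∑ q, c p q * (X p * Y q) = 0 := by
    have e1 : ∑ p, ∑ q, c p q * (X p * Y q) = ∑ p, ∑ q, c p q * (Y p * X q) := by
      apply Finset.sum_congr rfl; intro p _
      apply Finset.sum_congr rfl; intro q _
      rw [hXY, hXY]; ring
    have e2 : ∑ p, ∑ q, c p q * (Y p * X q) = - ∑ p, ∑ q, c p q * (X p * Y q) := by
      rw [Finset.sum_comm, ← Finset.sum_neg_distrib]
      apply Finset.sum_congr rfl; intro p _
      rw [← Finset.sum_neg_distrib]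
      apply Finset.sum_congr rfl; intro q _
      rw [hc q p]; ring
    linarith
  -- expand
  have h1 : ∑ p, ∑ q, c p q * (X p * Y q) =
      ∑ a, ∑ b, w (Sum.inl a) * w (Sum.inr b) * form c (x (Sum.inl a)) (x (Sum.inr b)) := by
    have e1 : ∀ p q, c p q * (X p * Y q) =
        ∑ a, ∑ b, w (Sum.inl a) * w (Sum.inr b) *
          (c p q * (x (Sum.inl a) ^ (p : ℕ) * x (Sum.inr b) ^ (q : ℕ))) := by
      intro p q
      simp only [hX, hY]
      rw [Finset.sum_mul_sum, Finset.mul_sum]
      apply Finset.sum_congr rfl; intro a _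
      rw [Finset.mul_sum]
      apply Finset.sum_congr rfl; intro b _
      ring
    simp only [e1]
    calc ∑ p, ∑ q, ∑ a, ∑ b, w (Sum.inl a) * w (Sum.inr b) *
          (c p q * (x (Sum.inl a) ^ (p : ℕ) * x (Sum.inr b) ^ (q : ℕ)))
        = ∑ p, ∑ a, ∑ q, ∑ b, w (Sum.inl a) * w (Sum.inr b) *
          (c p q * (x (Sum.inl a) ^ (p : ℕ) * x (Sum.inr b) ^ (q : ℕ))) := by
          apply Finset.sum_congr rfl; intro p _
          exact Finset.sum_comm
      _ = ∑ a, ∑ p, ∑ q, ∑ b, w (Sum.inl a) * w (Sum.inr b) *
          (c p q * (x (Sum.inl a) ^ (p : ℕ) * x (Sum.inr b) ^ (q : ℕ))) := Finset.sum_comm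
      _ = ∑ a, ∑ b, w (Sum.inl a) * w (Sum.inr b) *
          form c (x (Sum.inl a)) (x (Sum.inr b)) := by
          apply Finset.sum_congr rfl; intro a _
          have : ∀ p, ∑ q, ∑ b, w (Sum.inl a) * w (Sum.inr b) *
              (c p q * (x (Sum.inl a) ^ (p : ℕ) * x (Sum.inr b) ^ (q : ℕ))) =
              ∑ b, ∑ q, w (Sum.inl a) * w (Sum.inr b) *
              (c p q * (x (Sum.inl a) ^ (p : ℕ) * x (Sum.inr b) ^ (q : ℕ))) :=
            fun p => Finset.sum_comm
          simp only [this]
          rw [Finset.sum_comm]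
          apply Finset.sum_congr rfl; intro b _
          simp only [form, Finset.mul_sum]
  rw [h1] at h0
  rw [Finset.sum_eq_single a₀, Finset.sum_eq_single b₀] at h0
  · rcases mul_eq_zero.mp h0 with h2 | h2
    · exact absurd h2 (mul_ne_zero (hw _) (hw _))
    · exact h2
  · intro b _ hb
    rw [h a₀ b (by simp [hb]), mul_zero]
  · simp
  · intro a _ ha
    apply Finset.sum_eq_zero
    intro b _
    rw [h a b (by simp [ha]), mul_zero]
  · simp

/-- An alternating form of degree less than `N` in each variable vanishing on all pairs of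
`n ≥ N` distinct points is zero. -/
lemma anti_eq_zero {N : ℕ} (c : Fin N → Fin N → ℝ) (x : Fin N → ℝ) (hx : Function.Injective x)
    (h : ∀ i j, form c (x i) (x j) = 0) : ∀ a b, c a b = 0 := by
  have hdet : (Matrix.vandermonde x).det ≠ 0 := Matrix.det_vandermonde_ne_zero_iff.mpr hx
  set V := Matrix.vandermonde x with hV
  have hM : V * Matrix.of c * V.transpose = 0 := by
    ext i j
    have := h i j
    simp only [form] at this
    simp only [Matrix.mul_apply, Matrix.transpose_apply, Matrix.zero_apply, Matrix.of_apply,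
      hV, Matrix.vandermonde_apply]
    rw [← this]
    rw [Finset.sum_comm]
    apply Finset.sum_congr rfl; intro a _
    rw [Finset.sum_mul]
    apply Finset.sum_congr rfl; intro b _
    ring
  have hu : IsUnit V := by
    rw [Matrix.isUnit_iff_isUnit_det]
    exact hdet.isUnit
  have hu' : IsUnit V.transpose := by
    rw [Matrix.isUnit_iff_isUnit_det, Matrix.det_transpose]
    exact hdet.isUnit
  have h1 : V * Matrix.of c = 0 := by
    rwa [hu'.mul_left_eq_zero] at hM
  have h2 : (Matrix.of c : Matrix (Fin N) (Fin N) ℝ) = 0 := by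
    rwa [hu.mul_right_eq_zero] at h1
  intro a b
  have := congrFun (congrFun h2 a) b
  simpa using this

lemma card_pairs (N : ℕ) : Fintype.card {p : Fin N × Fin N // p.1 < p.2} = N.choose 2 := by
  have e : {p : Fin N × Fin N // p.1 < p.2} ≃ (Σ b : Fin N, Fin b) :=
    { toFun := fun p => ⟨p.1.2, ⟨p.1.1, p.2⟩⟩
      invFun := fun q => ⟨(⟨q.2, lt_trans q.2.2 q.1.2⟩, q.1), q.2.2⟩
      left_inv := fun p => rfl
      right_inv := fun q => rfl }
  rw [Fintype.card_congr e, Fintype.card_sigma]
  simp only [Fintype.card_fin]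
  rw [Nat.choose_two_right, ← Finset.sum_range_id]
  exact (Finset.sum_range (fun i => i)).symm

lemma form_swap {N : ℕ} (c : Fin N → Fin N → ℝ) (hc : ∀ a b, c a b = - c b a) (x y : ℝ) :
    form c x y = - form c y x := by
  unfold form
  rw [Finset.sum_comm, ← Finset.sum_neg_distrib]
  apply Finset.sum_congr rfl; intro a _
  rw [← Finset.sum_neg_distrib]
  apply Finset.sum_congr rfl; intro b _
  rw [hc b a]; ring

/-- The linear map from coefficient arrays to the values of the form. -/
noncomputable def formMap (N : ℕ) {ε : Type*} (p q : ε → ℝ) :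
    ({p : Fin N × Fin N // p.1 < p.2} → ℝ) →ₗ[ℝ] (ε → ℝ) where
  toFun φ := fun e => form (anti φ) (p e) (q e)
  map_add' φ ψ := by
    ext e
    simp only [form, Pi.add_apply]
    rw [← Finset.sum_add_distrib]
    apply Finset.sum_congr rfl; intro a _
    rw [← Finset.sum_add_distrib]
    apply Finset.sum_congr rfl; intro b _
    have : anti (φ + ψ) a b = anti φ a b + anti ψ a b := by
      unfold anti
      split_ifs <;> simp [add_comm]
    rw [this]; ring
  map_smul' r φ := by
    ext e
    simp only [form, Pi.smul_apply, smul_eq_mul, RingHom.id_apply]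
    rw [Finset.mul_sum]
    apply Finset.sum_congr rfl; intro a _
    rw [Finset.mul_sum]
    apply Finset.sum_congr rfl; intro b _
    have : anti (r • φ) a b = r * anti φ a b := by
      unfold anti
      split_ifs <;> simp
    rw [this]; ring

/-- If an alternating form vanishes on the edges of a weakly saturated graph, it vanishes on
all pairs. -/
lemma form_vanish {s t n N : ℕ} (hN : s + t = N + 1)
    (G : SimpleGraph (Fin n)) (hG : WeaklySaturated (K s t) G)
    (c : Fin N → Fin N → ℝ) (hc : ∀ a b, c a b = - c b a) (x : Fin n → ℝ)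
    (hx : Function.Injective x)
    (h0 : ∀ u v, G.Adj u v → form c (x u) (x v) = 0) :
    ∀ u v, form c (x u) (x v) = 0 := by
  obtain ⟨-, l, -, hl, hcopy⟩ := hG
  have key : ∀ i, i ≤ l.length → ∀ u v, s(u, v) ∈ l.take i → form c (x u) (x v) = 0 := by
    intro i
    induction i with
    | zero => intro _ u v h; simp at h
    | succ i ih =>
      intro hi u v huv
      have hi' : i < l.length := hi
      have hmem : ∀ e, e ∈ l.take (i + 1) → e ∈ l.take i ∨ e = l[i] := by
        intro e he
        rw [List.take_succ_eq_append_getElem hi', List.mem_append, List.mem_singleton] at he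
        exact he
      rcases hmem _ huv with huv | huv
      · exact ih hi'.le u v huv
      · obtain ⟨f, e, he, hfe⟩ := hcopy i hi'
        -- write the distinguished edge as `inl a₀ -- inr b₀`
        have hrep : ∃ a₀ b₀, e = s(Sum.inl a₀, Sum.inr b₀) := by
          induction e with
          | _ p q =>
            rw [SimpleGraph.mem_edgeSet, completeBipartiteGraph_adj] at he
            rcases p with p | p <;> rcases q with q | q
            · simp at he
            · exact ⟨p, q, rfl⟩
            · exact ⟨q, p, Sym2.eq_swap⟩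
            · simp at he
        obtain ⟨a₀, b₀, rfl⟩ := hrep
        have hst := step hN c hc (fun k => x (f k)) (hx.comp f.injective) a₀ b₀ (by
          intro a b hab
          have hadj : (G ⊔ SimpleGraph.fromEdgeSet {e | e ∈ l.take (i + 1)}).Adj
              (f (Sum.inl a)) (f (Sum.inr b)) := by
            apply f.toHom.map_adj
            rw [completeBipartiteGraph_adj]; simp
          rw [SimpleGraph.sup_adj, SimpleGraph.fromEdgeSet_adj] at hadj
          rcases hadj with hadj | ⟨hadj, -⟩
          · exact h0 _ _ hadj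
          · rcases hmem _ hadj with hadj | hadj
            · exact ih hi'.le _ _ hadj
            · exfalso
              rw [← hfe, Sym2.map_mk, Sym2.eq_iff] at hadj
              rcases hadj with ⟨h1, h2⟩ | ⟨h1, h2⟩
              · have h1' := f.injective h1
                have h2' := f.injective h2
                simp only [Sum.inl.injEq, Sum.inr.injEq] at h1' h2'
                exact hab (by rw [h1', h2'])
              · have h1' := f.injective h1
                simp at h1')
        rw [← hfe, Sym2.map_mk, Sym2.eq_iff] at huv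
        rcases huv with ⟨rfl, rfl⟩ | ⟨rfl, rfl⟩
        · exact hst
        · rw [form_swap c hc, neg_eq_zero]; exact hst
  intro u v
  by_cases huv : u = v
  · subst huv
    have := form_swap c hc (x u) (x u)
    linarith
  · by_cases hadj : G.Adj u v
    · exact h0 u v hadj
    · have : s(u, v) ∈ l := by
        rw [hl, SimpleGraph.mem_edgeSet, SimpleGraph.compl_adj]
        exact ⟨huv, hadj⟩
      exact key l.length le_rfl u v (by rwa [List.take_length])

/-- Lower bound: a weakly `K_{s,t}`-saturated graph on `n ≥ s + t - 1` vertices has at least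
`(s+t-1 choose 2)` edges. -/
theorem lower_bound {s t n : ℕ} (hst : 1 ≤ s + t) (hn : s + t ≤ n + 1)
    (G : SimpleGraph (Fin n)) (hG : WeaklySaturated (K s t) G) :
    (s + t - 1).choose 2 ≤ G.edgeSet.ncard := by
  classical
  obtain ⟨N, hN⟩ : ∃ N, s + t = N + 1 := ⟨s + t - 1, by omega⟩
  have hN' : s + t - 1 = N := by omega
  rw [hN']
  set x : Fin n → ℝ := fun v => ((v : ℕ) : ℝ) with hxdef
  have hx : Function.Injective x := by
    intro a b h
    simp only [hxdef, Nat.cast_inj] at h
    exact Fin.ext h
  let L := formMap N (ε := G.edgeSet) (fun e => x (Quot.out e.1).1) (fun e => x (Quot.out e.1).2)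
  have hL : Function.Injective L := by
    rw [← LinearMap.ker_eq_bot, LinearMap.ker_eq_bot']
    intro φ hφ
    have hc := anti_swap φ
    have h0 : ∀ u v, G.Adj u v → form (anti φ) (x u) (x v) = 0 := by
      intro u v huv
      have h1 := congrFun hφ ⟨s(u, v), huv⟩
      change form (anti φ) (x (Quot.out s(u, v)).1) (x (Quot.out s(u, v)).2) = 0 at h1
      have h2 : s((Quot.out s(u, v)).1, (Quot.out s(u, v)).2) = s(u, v) := Quot.out_eq _
      rw [Sym2.eq_iff] at h2
      rcases h2 with ⟨h3, h4⟩ | ⟨h3, h4⟩
      · rwa [h3, h4] at h1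
      · rw [h3, h4] at h1
        rw [form_swap _ hc, h1, neg_zero]
    have h1 := form_vanish hN G hG (anti φ) hc x hx h0
    have h2 := anti_eq_zero (anti φ) (fun i => x (Fin.castLE (show N ≤ n by omega) i))
      (hx.comp (Fin.castLE_injective (show N ≤ n by omega))) (fun i j => h1 _ _)
    ext ⟨⟨a, b⟩, hab⟩
    have h3 := h2 a b
    unfold anti at h3
    rw [dif_pos hab] at h3
    exact h3
  have h1 := LinearMap.finrank_le_finrank_of_injective hL
  rw [Module.finrank_fintype_fun_eq_card, Module.finrank_fintype_fun_eq_card, card_pairs] at h1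
  rw [← Nat.card_coe_set_eq, Nat.card_eq_fintype_card]
  exact h1

/-! ### Upper bound -/

lemma HasCopyUsing.mono {α V : Type*} {F : SimpleGraph α} {G G' : SimpleGraph V} {e : Sym2 V}
    (h : HasCopyUsing F G e) (hle : G ≤ G') : HasCopyUsing F G' e := by
  obtain ⟨f, x, hx, hfx⟩ := h
  exact ⟨(SimpleGraph.Copy.ofLE G G' hle).comp f, x, hx, hfx⟩

/-- A two-stage criterion for percolation. -/
lemma two_stage {α V : Type*} {F : SimpleGraph α} (G : SimpleGraph V) (E₁ E₂ : Finset (Sym2 V))
    (hdisj : Disjoint E₁ E₂) (hE : ∀ e, e ∈ E₁ ∨ e ∈ E₂ ↔ e ∈ Gᶜ.edgeSet)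
    (h₁ : ∀ e ∈ E₁, HasCopyUsing F (G ⊔ SimpleGraph.fromEdgeSet {e}) e)
    (h₂ : ∀ e ∈ E₂, HasCopyUsing F (G ⊔ SimpleGraph.fromEdgeSet (insert e (E₁ : Set (Sym2 V)))) e) :
    ∃ l : List (Sym2 V), l.Nodup ∧ (∀ e, e ∈ l ↔ e ∈ Gᶜ.edgeSet) ∧
    ∀ (i : ℕ) (h : i < l.length),
      HasCopyUsing F (G ⊔ SimpleGraph.fromEdgeSet {e | e ∈ l.take (i + 1)}) l[i] := by
  refine ⟨E₁.toList ++ E₂.toList, ?_, ?_, ?_⟩
  · rw [List.nodup_append']
    refine ⟨E₁.nodup_toList, E₂.nodup_toList, ?_⟩
    intro e he he'
    rw [Finset.mem_toList] at he he'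
    exact (Finset.disjoint_left.mp hdisj) he he'
  · intro e
    rw [List.mem_append, Finset.mem_toList, Finset.mem_toList]
    exact hE e
  · intro i hi
    have hself : (E₁.toList ++ E₂.toList)[i] ∈ (E₁.toList ++ E₂.toList).take (i + 1) := by
      rw [List.take_succ_eq_append_getElem hi, List.mem_append]
      right
      exact List.mem_singleton_self _
    by_cases hi1 : i < E₁.toList.length
    · have hmem : (E₁.toList ++ E₂.toList)[i] ∈ E₁ := by
        rw [List.getElem_append_left hi1]
        exact Finset.mem_toList.mp (List.getElem_mem hi1)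
      refine (h₁ _ hmem).mono ?_
      apply sup_le_sup_left
      apply SimpleGraph.fromEdgeSet_mono
      intro e he
      rw [Set.mem_singleton_iff] at he
      rw [he]
      exact hself
    · have hi2 : E₁.toList.length ≤ i := not_lt.mp hi1
      have hmem : (E₁.toList ++ E₂.toList)[i] ∈ E₂ := by
        rw [List.getElem_append_right hi2]
        exact Finset.mem_toList.mp (List.getElem_mem _)
      refine (h₂ _ hmem).mono ?_
      apply sup_le_sup_left
      apply SimpleGraph.fromEdgeSet_mono
      intro e he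
      rcases he with he | he
      · rw [he]; exact hself
      · change e ∈ (E₁.toList ++ E₂.toList).take (i + 1)
        rw [List.take_append, List.mem_append]
        left
        rw [List.take_of_length_le (by omega)]
        exact Finset.mem_toList.mpr he

/-- The graph of the upper bound: the first `s - 1` vertices are joined to everything, the first
`s + t - 1` vertices form a clique. -/
def G0 (s t n : ℕ) : SimpleGraph (Fin n) where
  Adj u v := u ≠ v ∧ ((u : ℕ) < s - 1 ∨ (v : ℕ) < s - 1 ∨
    ((u : ℕ) < s + t - 1 ∧ (v : ℕ) < s + t - 1))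
  symm := ⟨by intro u v h; exact ⟨h.1.symm, by tauto⟩⟩
  loopless := ⟨by intro u h; exact h.1 rfl⟩

lemma G0_free {s t n : ℕ} (hs : 1 ≤ s) (hst : s ≤ t) : (K s t).Free (G0 s t n) := by
  rintro ⟨f⟩
  have hadj : ∀ a b, (G0 s t n).Adj (f (Sum.inl a)) (f (Sum.inr b)) := by
    intro a b
    apply f.toHom.map_adj
    rw [completeBipartiteGraph_adj]; simp
  have hl : ∀ a, ((f (Sum.inl a) : Fin n) : ℕ) < s + t - 1 := by
    intro a
    by_contra hcon
    have h1 : ∀ b, ((f (Sum.inr b) : Fin n) : ℕ) < s - 1 := by
      intro b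
      have := (hadj a b).2
      omega
    have hinj : Function.Injective (fun b : Fin t => (⟨_, h1 b⟩ : Fin (s - 1))) := by
      intro b b' hb
      simp only [Fin.mk.injEq] at hb
      have := f.injective (Fin.ext hb)
      simpa using this
    have := Fintype.card_le_of_injective _ hinj
    simp only [Fintype.card_fin] at this
    omega
  have hr : ∀ b, ((f (Sum.inr b) : Fin n) : ℕ) < s + t - 1 := by
    intro b
    by_contra hcon
    have h1 : ∀ a, ((f (Sum.inl a) : Fin n) : ℕ) < s - 1 := by
      intro a
      have := (hadj a b).2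
      omega
    have hinj : Function.Injective (fun a : Fin s => (⟨_, h1 a⟩ : Fin (s - 1))) := by
      intro a a' ha
      simp only [Fin.mk.injEq] at ha
      have := f.injective (Fin.ext ha)
      simpa using this
    have := Fintype.card_le_of_injective _ hinj
    simp only [Fintype.card_fin] at this
    omega
  have hall : ∀ k, ((f k : Fin n) : ℕ) < s + t - 1 := by
    rintro (a | b)
    · exact hl a
    · exact hr b
  have hinj : Function.Injective (fun k : Fin s ⊕ Fin t => (⟨_, hall k⟩ : Fin (s + t - 1))) := by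
    intro a a' ha
    simp only [Fin.mk.injEq] at ha
    exact f.injective (Fin.ext ha)
  have := Fintype.card_le_of_injective _ hinj
  simp only [Fintype.card_fin, Fintype.card_sum] at this
  omega

lemma G0_card {s t j : ℕ} (hs : 1 ≤ s) :
    (G0 s t (s + t + j)).edgeSet.ncard ≤ (s + t - 1).choose 2 + (j + 1) * (s - 1) := by
  classical
  let g : {p : Fin (s + t - 1) × Fin (s + t - 1) // p.1 < p.2} ⊕ (Fin (j + 1) × Fin (s - 1)) →
      Sym2 (Fin (s + t + j)) := fun z => match z with
    | Sum.inl p => s(Fin.castLE (by omega) p.1.1, Fin.castLE (by omega) p.1.2)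
    | Sum.inr q => s(Fin.castLE (by omega) q.2, ⟨s + t - 1 + q.1, by have := q.1.isLt; omega⟩)
  have hsub : (G0 s t (s + t + j)).edgeSet ⊆ ((Finset.univ.image g : Finset _) : Set _) := by
    intro e he
    induction e with
    | _ u v =>
      wlog huv : u < v generalizing u v
      · have hne : u ≠ v := he.1
        have hlt : v < u := lt_of_le_of_ne (not_lt.mp huv) hne.symm
        rw [Sym2.eq_swap] at he ⊢
        exact this v u he hlt
      · have h : (u : ℕ) < s - 1 ∨ (v : ℕ) < s - 1 ∨
            ((u : ℕ) < s + t - 1 ∧ (v : ℕ) < s + t - 1) := he.2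
        have huv' : (u : ℕ) < v := huv
        rw [Finset.mem_coe, Finset.mem_image]
        by_cases hv : (v : ℕ) < s + t - 1
        · refine ⟨Sum.inl ⟨(⟨u, by omega⟩, ⟨v, hv⟩), huv⟩, Finset.mem_univ _, ?_⟩
          rfl
        · have hu : (u : ℕ) < s - 1 := by omega
          refine ⟨Sum.inr (⟨v - (s + t - 1), by have := v.isLt; omega⟩, ⟨u, hu⟩),
            Finset.mem_univ _, ?_⟩
          have hv2 : (⟨s + t - 1 + ((v : ℕ) - (s + t - 1)), by have := v.isLt; omega⟩ :
              Fin (s + t + j)) = v := by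
            apply Fin.ext
            change s + t - 1 + ((v : ℕ) - (s + t - 1)) = v
            omega
          exact congrArg (fun w => s(u, w)) hv2
  calc (G0 s t (s + t + j)).edgeSet.ncard
      ≤ ((Finset.univ.image g : Finset _) : Set (Sym2 (Fin (s + t + j)))).ncard :=
        Set.ncard_le_ncard hsub (Finset.finite_toSet _)
    _ = (Finset.univ.image g).card := Set.ncard_coe_finset _
    _ ≤ Finset.univ.card := Finset.card_image_le
    _ = (s + t - 1).choose 2 + (j + 1) * (s - 1) := by
        rw [Finset.card_univ, Fintype.card_sum, card_pairs, Fintype.card_prod, Fintype.card_fin,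
          Fintype.card_fin]

lemma G0_weaklySaturated {s t n : ℕ} (hs : 1 ≤ s) (hst : s ≤ t) (hn : s + t ≤ n + 1) :
    WeaklySaturated (K s t) (G0 s t n) := by
  classical
  refine ⟨G0_free hs hst, ?_⟩
  let P : Sym2 (Fin n) → Prop := fun e =>
    ∃ v x : Fin n, (v : ℕ) < s + t - 1 ∧ s + t - 1 ≤ (x : ℕ) ∧ e = s(v, x)
  let E₁ : Finset (Sym2 (Fin n)) := Finset.univ.filter (fun e => e ∈ (G0 s t n)ᶜ.edgeSet ∧ P e)
  let E₂ : Finset (Sym2 (Fin n)) := Finset.univ.filter (fun e => e ∈ (G0 s t n)ᶜ.edgeSet ∧ ¬ P e)
  have hmem₁ : ∀ e, e ∈ E₁ ↔ e ∈ (G0 s t n)ᶜ.edgeSet ∧ P e := by intro e; simp [E₁]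
  have hmem₂ : ∀ e, e ∈ E₂ ↔ e ∈ (G0 s t n)ᶜ.edgeSet ∧ ¬ P e := by intro e; simp [E₂]
  apply two_stage (G0 s t n) E₁ E₂
  · rw [Finset.disjoint_left]
    intro e he he'
    rw [hmem₁] at he
    rw [hmem₂] at he'
    exact he'.2 he.2
  · intro e
    rw [hmem₁, hmem₂]
    constructor
    · rintro (⟨h, -⟩ | ⟨h, -⟩) <;> exact h
    · intro h
      by_cases hP : P e
      · exact Or.inl ⟨h, hP⟩
      · exact Or.inr ⟨h, hP⟩
  · intro e he
    rw [hmem₁] at he
    obtain ⟨he, v, x, hv, hx, rfl⟩ := he
    rw [SimpleGraph.mem_edgeSet, SimpleGraph.compl_adj] at he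
    have hv' : s - 1 ≤ (v : ℕ) := by
      by_contra hcon
      exact he.2 ⟨he.1, Or.inl (by omega)⟩
    -- the copy
    let φ : Fin s ⊕ Fin t → Fin n := fun k => match k with
      | Sum.inl a => if (a : ℕ) < s - 1 then ⟨a, by have := a.isLt; omega⟩ else v
      | Sum.inr b => if s - 1 + (b : ℕ) = v then x else ⟨s - 1 + b, by have := b.isLt; omega⟩
    have hφl : ∀ a : Fin s, ((φ (Sum.inl a) : Fin n) : ℕ) = if (a : ℕ) < s - 1 then (a : ℕ) else v := by
      intro a; simp only [φ]; split_ifs <;> rfl
    have hφr : ∀ b : Fin t, ((φ (Sum.inr b) : Fin n) : ℕ) =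
        if s - 1 + (b : ℕ) = v then (x : ℕ) else s - 1 + b := by
      intro b; simp only [φ]; split_ifs <;> rfl
    have hinj : Function.Injective φ := by
      rintro (a | b) (a' | b') h <;> have h' := congrArg Fin.val h
      · rw [hφl, hφl] at h'
        have := a.isLt; have := a'.isLt
        congr 1; apply Fin.ext
        split_ifs at h' <;> omega
      · rw [hφl, hφr] at h'
        have := a.isLt; have := b'.isLt
        exfalso
        split_ifs at h' <;> omega
      · rw [hφl, hφr] at h'
        have := b.isLt; have := a'.isLt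
        exfalso
        split_ifs at h' <;> omega
      · rw [hφr, hφr] at h'
        have := b.isLt; have := b'.isLt
        congr 1; apply Fin.ext
        split_ifs at h' <;> omega
    have key : ∀ a b, (G0 s t n ⊔ SimpleGraph.fromEdgeSet {s(v, x)}).Adj (φ (Sum.inl a))
        (φ (Sum.inr b)) := by
      intro a b
      have hne : φ (Sum.inl a) ≠ φ (Sum.inr b) :=
        hinj.ne (by simp : (Sum.inl a : Fin s ⊕ Fin t) ≠ Sum.inr b)
      rw [SimpleGraph.sup_adj, SimpleGraph.fromEdgeSet_adj]
      by_cases hb : (a : ℕ) < s - 1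
      · left
        refine ⟨hne, Or.inl ?_⟩
        rw [hφl, if_pos hb]; exact hb
      · by_cases hb' : s - 1 + (b : ℕ) = v
        · right
          refine ⟨?_, hne⟩
          rw [Set.mem_singleton_iff]
          simp only [φ, if_neg hb, if_pos hb']
        · left
          refine ⟨hne, Or.inr (Or.inr ⟨?_, ?_⟩)⟩
          · rw [hφl, if_neg hb]; exact hv
          · rw [hφr, if_neg hb']; have := b.isLt; omega
    refine ⟨⟨⟨φ, ?_⟩, hinj⟩, s(Sum.inl ⟨s - 1, by omega⟩, Sum.inr ⟨v - (s - 1), by omega⟩),
      ?_, ?_⟩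
    · rintro (a | b) (a' | b') h
      · simp at h
      · exact key a b'
      · exact (key a' b).symm
      · simp at h
    · rw [SimpleGraph.mem_edgeSet, completeBipartiteGraph_adj]; simp
    · rw [Sym2.map_mk]
      simp only [SimpleGraph.Copy.coe_mk, RelHom.coeFn_mk, φ]
      rw [if_neg (by simp), if_pos (by omega)]
  · intro e he
    rw [hmem₂] at he
    obtain ⟨he, hP⟩ := he
    induction e with
    | _ x x' =>
      rw [SimpleGraph.mem_edgeSet, SimpleGraph.compl_adj] at he
      have hxne : (x : ℕ) ≠ x' := fun h => he.1 (Fin.ext h)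
      have hx : s + t - 1 ≤ (x : ℕ) ∧ s + t - 1 ≤ (x' : ℕ) := by
        by_contra hcon
        by_cases h1 : (x : ℕ) < s + t - 1
        · by_cases h2 : (x' : ℕ) < s + t - 1
          · exact he.2 ⟨he.1, Or.inr (Or.inr ⟨h1, h2⟩)⟩
          · exact hP ⟨x, x', h1, by omega, rfl⟩
        · by_cases h2 : (x' : ℕ) < s + t - 1
          · exact hP ⟨x', x, h2, by omega, Sym2.eq_swap⟩
          · exact hcon ⟨by omega, by omega⟩
      obtain ⟨hx, hx'⟩ := hx
      let φ : Fin s ⊕ Fin t → Fin n := fun k => match k with
        | Sum.inl a => if (a : ℕ) < s - 1 then ⟨a, by have := a.isLt; omega⟩ else x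
        | Sum.inr b => if (b : ℕ) = 0 then x' else ⟨s - 1 + b, by have := b.isLt; omega⟩
      have hφl : ∀ a : Fin s, ((φ (Sum.inl a) : Fin n) : ℕ) =
          if (a : ℕ) < s - 1 then (a : ℕ) else x := by
        intro a; simp only [φ]; split_ifs <;> rfl
      have hφr : ∀ b : Fin t, ((φ (Sum.inr b) : Fin n) : ℕ) =
          if (b : ℕ) = 0 then (x' : ℕ) else s - 1 + b := by
        intro b; simp only [φ]; split_ifs <;> rfl
      have hinj : Function.Injective φ := by
        rintro (a | b) (a' | b') h <;> have h' := congrArg Fin.val h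
        · rw [hφl, hφl] at h'
          have := a.isLt; have := a'.isLt
          congr 1; apply Fin.ext
          split_ifs at h' <;> omega
        · rw [hφl, hφr] at h'
          have := a.isLt; have := b'.isLt
          exfalso
          split_ifs at h' <;> omega
        · rw [hφl, hφr] at h'
          have := b.isLt; have := a'.isLt
          exfalso
          split_ifs at h' <;> omega
        · rw [hφr, hφr] at h'
          have := b.isLt; have := b'.isLt
          congr 1; apply Fin.ext
          split_ifs at h' <;> omega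
      have key : ∀ a b, (G0 s t n ⊔ SimpleGraph.fromEdgeSet (insert s(x, x')
          (E₁ : Set (Sym2 (Fin n))))).Adj (φ (Sum.inl a)) (φ (Sum.inr b)) := by
        intro a b
        have hne : φ (Sum.inl a) ≠ φ (Sum.inr b) :=
        hinj.ne (by simp : (Sum.inl a : Fin s ⊕ Fin t) ≠ Sum.inr b)
        rw [SimpleGraph.sup_adj, SimpleGraph.fromEdgeSet_adj]
        by_cases hb : (a : ℕ) < s - 1
        · left
          refine ⟨hne, Or.inl ?_⟩
          rw [hφl, if_pos hb]; exact hb
        · right
          refine ⟨?_, hne⟩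
          by_cases hb' : (b : ℕ) = 0
          · rw [Set.mem_insert_iff]
            left
            simp only [φ, if_neg hb, if_pos hb']
          · rw [Set.mem_insert_iff]
            right
            rw [Finset.mem_coe, hmem₁]
            have h1 : ((φ (Sum.inl a) : Fin n) : ℕ) = x := by rw [hφl, if_neg hb]
            have h2 : ((φ (Sum.inr b) : Fin n) : ℕ) = s - 1 + b := by rw [hφr, if_neg hb']
            have := b.isLt
            refine ⟨?_, φ (Sum.inr b), φ (Sum.inl a), by omega, by omega, Sym2.eq_swap⟩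
            rw [SimpleGraph.mem_edgeSet, SimpleGraph.compl_adj]
            refine ⟨hne, ?_⟩
            rintro ⟨-, h⟩
            omega
      refine ⟨⟨⟨φ, ?_⟩, hinj⟩, s(Sum.inl ⟨s - 1, by omega⟩, Sum.inr ⟨0, by omega⟩), ?_, ?_⟩
      · rintro (a | b) (a' | b') h
        · simp at h
        · exact key a b'
        · exact (key a' b).symm
        · simp at h
      · rw [SimpleGraph.mem_edgeSet, completeBipartiteGraph_adj]; simp
      · rw [Sym2.map_mk]
        simp only [SimpleGraph.Copy.coe_mk, RelHom.coeFn_mk, φ]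
        rw [if_neg (by simp)]
        simp

/-- The two-sided bound. -/
theorem bounds {s t j : ℕ} (hs : 1 ≤ s) (hst : s ≤ t) :
    (s + t - 1).choose 2 ≤ wsat (s + t + j) (K s t) ∧
      wsat (s + t + j) (K s t) ≤ (s + t - 1).choose 2 + (j + 1) * (s - 1) := by
  have hne : {m | ∃ G : SimpleGraph (Fin (s + t + j)), WeaklySaturated (K s t) G ∧
      G.edgeSet.ncard = m}.Nonempty :=
    ⟨_, G0 s t _, G0_weaklySaturated hs hst (by omega), rfl⟩
  constructor
  · obtain ⟨G, hG, hm⟩ := Nat.sInf_mem hne
    unfold wsat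
    rw [← hm]
    exact lower_bound (by omega) (by omega) G hG
  · have hmem : (G0 s t (s + t + j)).edgeSet.ncard ∈ {m | ∃ G : SimpleGraph (Fin (s + t + j)),
        WeaklySaturated (K s t) G ∧ G.edgeSet.ncard = m} :=
      ⟨G0 s t _, G0_weaklySaturated hs hst (by omega), rfl⟩
    exact (Nat.sInf_le hmem).trans (G0_card hs)

end Pool.Agent.Helper38.WSat
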